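import Pool.Agent.L7h32.OS.Stm

/-!
# Project OS: what nonsingularity says about an octic with separated variables
-/

set_option autoImplicit false

open MvPolynomial

namespace Pool.Agent.L7h36.OS

open Pool.Agent.L7h17.OC Pool.Agent.L7h32.OS

/-- the value of `F` at a complex point -/
theorem val {F : MvPolynomial (Fin 3) ℝ} {a b : ℕ → ℝ} (h : Sep F a b) (v : Fin 3 → ℂ) :
    aeval v F = ∑ i ∈ Finset.range 9, (((a i : ℝ) : ℂ) * v 0 ^ i + ((b i : ℝ) : ℂ) * v 1 ^ i) *
      v 2 ^ (8 - i) := by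
  rw [h]
  simp [map_sum]

theorem d0 {F : MvPolynomial (Fin 3) ℝ} {a b : ℕ → ℝ} (h : Sep F a b) (v : Fin 3 → ℂ) :
    aeval v (pderiv 0 F) = ∑ i ∈ Finset.range 9, (((a i : ℝ) : ℂ) * (i * v 0 ^ (i - 1))) *
      v 2 ^ (8 - i) := by
  rw [h, map_sum, map_sum]
  refine Finset.sum_congr rfl fun i _ => ?_
  have e : pderiv (0 : Fin 3) ((C (a i) * X 0 ^ i + C (b i) * X 1 ^ i) * X 2 ^ (8 - i) :
      MvPolynomial (Fin 3) ℝ) = C (a i) * ((i : MvPolynomial (Fin 3) ℝ) * X 0 ^ (i - 1)) *
        X 2 ^ (8 - i) := by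
    simp [Derivation.leibniz, Derivation.leibniz_pow, pderiv_X_of_ne, pderiv_X_self]
    ring
  rw [e]
  simp

theorem d1 {F : MvPolynomial (Fin 3) ℝ} {a b : ℕ → ℝ} (h : Sep F a b) (v : Fin 3 → ℂ) :
    aeval v (pderiv 1 F) = ∑ i ∈ Finset.range 9, (((b i : ℝ) : ℂ) * (i * v 1 ^ (i - 1))) *
      v 2 ^ (8 - i) := by
  rw [h, map_sum, map_sum]
  refine Finset.sum_congr rfl fun i _ => ?_
  have e : pderiv (1 : Fin 3) ((C (a i) * X 0 ^ i + C (b i) * X 1 ^ i) * X 2 ^ (8 - i) :
      MvPolynomial (Fin 3) ℝ) = C (b i) * ((i : MvPolynomial (Fin 3) ℝ) * X 1 ^ (i - 1)) *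
        X 2 ^ (8 - i) := by
    simp [Derivation.leibniz, Derivation.leibniz_pow, pderiv_X_of_ne, pderiv_X_self]
    ring
  rw [e]
  simp

theorem d2 {F : MvPolynomial (Fin 3) ℝ} {a b : ℕ → ℝ} (h : Sep F a b) (v : Fin 3 → ℂ) :
    aeval v (pderiv 2 F) = ∑ i ∈ Finset.range 9,
      (((a i : ℝ) : ℂ) * v 0 ^ i + ((b i : ℝ) : ℂ) * v 1 ^ i) *
        (((8 - i : ℕ) : ℂ) * v 2 ^ (8 - i - 1)) := by
  rw [h, map_sum, map_sum]
  refine Finset.sum_congr rfl fun i _ => ?_
  have e : pderiv (2 : Fin 3) ((C (a i) * X 0 ^ i + C (b i) * X 1 ^ i) * X 2 ^ (8 - i) :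
      MvPolynomial (Fin 3) ℝ) = (C (a i) * X 0 ^ i + C (b i) * X 1 ^ i) *
        (((8 - i : ℕ) : MvPolynomial (Fin 3) ℝ) * X 2 ^ (8 - i - 1)) := by
    simp [Derivation.leibniz, Derivation.leibniz_pow]
  rw [e]
  simp

theorem eval_pol (a : ℕ → ℝ) (x : ℝ) :
    (pol a).eval x = ∑ i ∈ Finset.range 9, a i * x ^ i := by
  simp [pol, Polynomial.eval_finset_sum]

theorem eval_dpol (a : ℕ → ℝ) (x : ℝ) :
    (pol a).derivative.eval x = ∑ i ∈ Finset.range 9, a i * (i * x ^ (i - 1)) := by
  simp [pol, Polynomial.eval_finset_sum, Polynomial.derivative_sum, Polynomial.derivative_X_pow]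

theorem coeff_pol (a : ℕ → ℝ) (n : ℕ) (hn : n < 9) : (pol a).coeff n = a n := by
  rw [pol, Polynomial.finset_sum_coeff, Finset.sum_eq_single n]
  · simp
  · intro i _ hi
    simp [Polynomial.coeff_X_pow, Ne.symm hi]
  · intro h
    exact absurd (Finset.mem_range.2 hn) h

theorem zero_of_dpol {a : ℕ → ℝ} (h : (pol a).derivative = 0) (n : ℕ) (hn : n + 1 < 9) :
    a (n + 1) = 0 := by
  have h1 := congrArg (fun p => Polynomial.coeff p n) h
  simp only [Polynomial.coeff_derivative, Polynomial.coeff_zero, coeff_pol a (n + 1) hn] at h1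
  rcases mul_eq_zero.1 h1 with h2 | h2
  · exact h2
  · exact absurd h2 (by positivity)

theorem s_NSG : S_NSG := by
  intro F a b hF hN
  refine ⟨?_, ?_, ?_, ?_⟩
  · rintro ⟨x, y⟩ hp ⟨h1, h2⟩
    have h0 : (pol a).eval x + (pol b).eval y = 0 := hp
    simp only at h1 h2
    rw [eval_pol, eval_pol] at h0
    rw [eval_dpol] at h1 h2
    have c0 := congrArg (fun t : ℝ => (t : ℂ)) h0
    have c1 := congrArg (fun t : ℝ => (t : ℂ)) h1
    have c2 := congrArg (fun t : ℝ => (t : ℂ)) h2
    simp only [Finset.sum_range_succ, Finset.sum_range_zero] at c0 c1 c2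
    push_cast at c0 c1 c2
    refine hN ![(x : ℂ), (y : ℂ), 1] (fun h => ?_) ⟨?_, fun i => ?_⟩
    · have := congrFun h 2
      simp at this
    · rw [val hF]
      simp only [Finset.sum_range_succ, Finset.sum_range_zero, Matrix.cons_val_zero,
        Matrix.cons_val_one, Matrix.cons_val]
      linear_combination c0
    · fin_cases i
      · show aeval _ (pderiv 0 F) = 0
        rw [d0 hF]
        simp only [Finset.sum_range_succ, Finset.sum_range_zero, Matrix.cons_val_zero,
          Matrix.cons_val_one, Matrix.cons_val]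
        push_cast
        linear_combination c1
      · show aeval _ (pderiv 1 F) = 0
        rw [d1 hF]
        simp only [Finset.sum_range_succ, Finset.sum_range_zero, Matrix.cons_val_zero,
          Matrix.cons_val_one, Matrix.cons_val]
        push_cast
        linear_combination c2
      · show aeval _ (pderiv 2 F) = 0
        rw [d2 hF]
        simp only [Finset.sum_range_succ, Finset.sum_range_zero, Matrix.cons_val_zero,
          Matrix.cons_val_one, Matrix.cons_val]
        norm_num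
        norm_num at c0 c1 c2
        linear_combination 8 * c0 - x * c1 - y * c2
  · intro h
    have e := zero_of_dpol h
    have e7 := e 6 (by norm_num)
    have e8 := e 7 (by norm_num)
    norm_num at e7 e8
    refine hN ![1, 0, 0] (fun h => ?_) ⟨?_, fun i => ?_⟩
    · have := congrFun h 0
      simp at this
    · rw [val hF]
      simp [Finset.sum_range_succ, e7, e8]
    · fin_cases i
      · show aeval _ (pderiv 0 F) = 0
        rw [d0 hF]
        simp [Finset.sum_range_succ, e7, e8]
      · show aeval _ (pderiv 1 F) = 0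
        rw [d1 hF]
        simp [Finset.sum_range_succ, e7, e8]
      · show aeval _ (pderiv 2 F) = 0
        rw [d2 hF]
        simp [Finset.sum_range_succ, e7, e8]
  · intro h
    have e := zero_of_dpol h
    have e7 := e 6 (by norm_num)
    have e8 := e 7 (by norm_num)
    norm_num at e7 e8
    refine hN ![0, 1, 0] (fun h => ?_) ⟨?_, fun i => ?_⟩
    · have := congrFun h 1
      simp at this
    · rw [val hF]
      simp [Finset.sum_range_succ, e7, e8]
    · fin_cases i
      · show aeval _ (pderiv 0 F) = 0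
        rw [d0 hF]
        simp [Finset.sum_range_succ, e7, e8]
      · show aeval _ (pderiv 1 F) = 0
        rw [d1 hF]
        simp [Finset.sum_range_succ, e7, e8]
      · show aeval _ (pderiv 2 F) = 0
        rw [d2 hF]
        simp [Finset.sum_range_succ, e7, e8]
  · by_contra hab
    push Not at hab
    obtain ⟨ha, hb⟩ := hab
    have hxy : ∃ x y : ℂ, (x ≠ 0 ∨ y ≠ 0) ∧ (a 7 : ℂ) * x ^ 7 + (b 7 : ℂ) * y ^ 7 = 0 := by
      by_cases h7 : a 7 = 0 ∧ b 7 = 0
      · exact ⟨1, 0, Or.inl one_ne_zero, by simp [h7.1, h7.2]⟩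
      · obtain ⟨x, hx⟩ := IsAlgClosed.exists_pow_nat_eq (-(b 7 : ℂ)) (n := 7) (by norm_num)
        obtain ⟨y, hy⟩ := IsAlgClosed.exists_pow_nat_eq (a 7 : ℂ) (n := 7) (by norm_num)
        refine ⟨x, y, ?_, by rw [hx, hy]; ring⟩
        by_contra hc
        push Not at hc
        rw [hc.1] at hx
        rw [hc.2] at hy
        refine h7 ⟨?_, ?_⟩
        · have : (a 7 : ℂ) = 0 := by rw [← hy]; norm_num
          exact_mod_cast this
        · have : (b 7 : ℂ) = 0 := by
            have : -(b 7 : ℂ) = 0 := by rw [← hx]; norm_num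
            simpa using this
          exact_mod_cast this
    obtain ⟨x, y, hne, hxy⟩ := hxy
    refine hN ![x, y, 0] (fun h => ?_) ⟨?_, fun i => ?_⟩
    · have h0 := congrFun h 0
      have h1 := congrFun h 1
      simp at h0 h1
      rcases hne with h | h
      · exact h h0
      · exact h h1
    · rw [val hF]
      simp [Finset.sum_range_succ, ha, hb]
    · fin_cases i
      · show aeval _ (pderiv 0 F) = 0
        rw [d0 hF]
        simp [Finset.sum_range_succ, ha, hb]
      · show aeval _ (pderiv 1 F) = 0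
        rw [d1 hF]
        simp [Finset.sum_range_succ, ha, hb]
      · show aeval _ (pderiv 2 F) = 0
        rw [d2 hF]
        simp [Finset.sum_range_succ, ha, hb]
        exact hxy

end Pool.Agent.L7h36.OS
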